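import Mathlib
import Pool.Agent.W844.GP.Defs

/-!
# Project GP: `S_REC → S_SPLIT → S_U2`
-/

set_option autoImplicit false

open Finset MeasureTheory ProbabilityTheory Filter Topology
open scoped ENNReal

namespace Pool.Agent.W318.GP

open Pool.Agent.W844.VG (V stp nm)
open Pool.Agent.W844.GP

variable {d : ℕ}

lemma big_mono {w : V d → ℝ} {a : V d} {R R' : ℕ} {c c' : ℝ} (hR : R ≤ R') (hc : c' ≤ c)
    (h : Big w a R c) : Big w a R' c' := by
  obtain ⟨l, hl, h1, h2⟩ := h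
  refine ⟨l, hl, fun z hz j => ⟨(h1 z hz j).1, ?_⟩, hc.trans h2⟩
  have := (h1 z hz j).2
  have : (R : ℤ) ≤ R' := by exact_mod_cast hR
  omega

lemma g_mono (ν : Measure ℝ) {R R' : ℕ} {c c' : ℝ} (hR : R ≤ R') (hc : c' ≤ c) :
    law ν d {w | Big w 0 R c} ≤ law ν d {w | Big w 0 R' c'} :=
  measure_mono fun _ h => big_mono hR hc h

/-- a.s. all weights are at most `T` -/
lemma ae_le (ν : Measure ℝ) [IsProbabilityMeasure ν] (T : ℝ) (hT : ν (Set.Ioi T) = 0) :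
    ∀ᵐ w ∂law ν d, ∀ x : V d, w x ≤ T := by
  rw [ae_all_iff]
  intro x
  have h := measurePreserving_eval_infinitePi (fun _ : V d => ν) x
  have h2 : law ν d ((fun w : V d → ℝ => w x) ⁻¹' Set.Ioi T) = 0 := by
    unfold law
    rw [h.measure_preimage measurableSet_Ioi.nullMeasurableSet]
    exact hT
  rw [ae_iff]
  simpa [Set.preimage, Set.mem_Ioi, not_le] using h2

lemma big_zero (ν : Measure ℝ) [IsProbabilityMeasure ν] (T : ℝ) (hT0 : 0 ≤ T)
    (hT : ν (Set.Ioi T) = 0) (R : ℕ) (c : ℝ) (hc : T * R ^ d < c) :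
    law ν d {w | Big w 0 R c} = 0 := by
  have h := ae_le (d := d) ν T hT
  rw [← nonpos_iff_eq_zero, ← ae_iff.mp h]
  refine measure_mono fun w hw => ?_
  intro hall
  obtain ⟨l, hl, h1, h2⟩ := hw
  have h3 : wt w l ≤ l.length • T := by
    unfold wt
    have := List.sum_le_card_nsmul (l.map w) T (by
      intro x hx
      obtain ⟨y, -, rfl⟩ := List.mem_map.mp hx
      exact hall y)
    simpa using this
  have h4 : l.length ≤ R ^ d := by
    classical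
    have e : l.toFinset.card = l.length := List.toFinset_card_of_nodup hl.2
    rw [← e]
    have hsub : l.toFinset ⊆ Fintype.piFinset (fun _ : Fin d => Finset.Ico (0 : ℤ) R) := by
      intro z hz
      rw [List.mem_toFinset] at hz
      rw [Fintype.mem_piFinset]
      intro j
      have := h1 z hz j
      simp only [Pi.zero_apply, zero_add] at this
      rw [Finset.mem_Ico]
      exact this
    refine (Finset.card_le_card hsub).trans ?_
    rw [Fintype.card_piFinset]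
    simp
  have h5 : (l.length : ℝ) * T ≤ R ^ d * T := by
    have : (l.length : ℝ) ≤ R ^ d := by exact_mod_cast h4
    exact mul_le_mul_of_nonneg_right this hT0
  rw [nsmul_eq_mul] at h3
  have : c ≤ wt w l := h2
  nlinarith

lemma small_real (A d : ℕ) (δ : ℝ) (hδ : 0 < δ) :
    ∃ m : ℕ, 1 ≤ m ∧ (2 * ((A * 3 ^ m : ℕ) : ℝ)) ^ d * (2⁻¹ : ℝ) ^ (2 ^ m) ≤ δ := by
  have h0 : Tendsto (fun n : ℕ => (n : ℝ) ^ (2 * d) * (2⁻¹ : ℝ) ^ n) atTop (𝓝 0) :=
    tendsto_pow_const_mul_const_pow_of_abs_lt_one (2 * d) (by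
      rw [abs_of_pos (by norm_num)]; norm_num)
  have h1 : Tendsto (fun m : ℕ => (2 : ℕ) ^ m) atTop atTop :=
    tendsto_pow_atTop_atTop_of_one_lt (by norm_num)
  have h2 := (h0.comp h1).const_mul ((2 * (A : ℝ)) ^ d)
  rw [mul_zero] at h2
  have h3 := (h2.eventually (gt_mem_nhds hδ)).and (eventually_ge_atTop 1)
  obtain ⟨m, hm, hm1⟩ := h3.exists
  refine ⟨m, hm1, le_trans ?_ hm.le⟩
  simp only [Function.comp]
  rw [← mul_assoc]
  refine mul_le_mul_of_nonneg_right ?_ (by positivity)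
  have h4 : ((2 ^ m : ℕ) : ℝ) ^ (2 * d) = ((4 : ℝ) ^ m) ^ d := by
    push_cast
    rw [← pow_mul, ← pow_mul, show (4 : ℝ) = 2 ^ 2 by norm_num, ← pow_mul]
    congr 1
    ring
  rw [h4, ← mul_pow]
  refine pow_le_pow_left₀ (by positivity) ?_ d
  push_cast
  have h5 : (3 : ℝ) ^ m ≤ 4 ^ m := pow_le_pow_left₀ (by norm_num) (by norm_num) m
  have h6 : (0 : ℝ) ≤ A := Nat.cast_nonneg A
  nlinarith [mul_le_mul_of_nonneg_left h5 h6]

lemma small (A d : ℕ) (δ : ℝ) (hδ : 0 < δ) :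
    ∃ m : ℕ, 1 ≤ m ∧
      (2 * ((A * 3 ^ m : ℕ) : ℝ≥0∞)) ^ d * (2⁻¹ : ℝ≥0∞) ^ (2 ^ m) ≤ ENNReal.ofReal δ := by
  obtain ⟨m, hm, h⟩ := small_real A d δ hδ
  refine ⟨m, hm, ?_⟩
  have e : (2 * ((A * 3 ^ m : ℕ) : ℝ≥0∞)) ^ d * (2⁻¹ : ℝ≥0∞) ^ (2 ^ m) =
      ENNReal.ofReal ((2 * ((A * 3 ^ m : ℕ) : ℝ)) ^ d * (2⁻¹ : ℝ) ^ (2 ^ m)) := by
    rw [ENNReal.ofReal_mul (by positivity), ENNReal.ofReal_pow (by positivity),
      ENNReal.ofReal_pow (by positivity), ENNReal.ofReal_mul (by norm_num), ENNReal.ofReal_natCast,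
      ENNReal.ofReal_inv_of_pos (by norm_num)]
    norm_num
  rw [e]
  exact ENNReal.ofReal_le_ofReal h

/-- iterated splitting -/
lemma split_iter (hs : S_SPLIT) (ν : Measure ℝ) [IsProbabilityMeasure ν] (T : ℝ) (hT0 : 0 ≤ T)
    (hT : ν (Set.Ioi T) = 0) (R : ℕ) (c : ℝ) (hc : T ≤ c) (m : ℕ) :
    law ν d {w | Big w 0 R (3 ^ m * c)} ≤ law ν d {w | Big w 0 R c} ^ (2 ^ m) := by
  induction m with
  | zero => simp
  | succ m ih =>
    have hc0 : 0 ≤ c := hT0.trans hc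
    have h1 : (1 : ℝ) ≤ 3 ^ m := one_le_pow₀ (by norm_num)
    have h2 : c ≤ 3 ^ m * c := by nlinarith
    have h3 : 2 * (3 ^ m * c) + T ≤ 3 ^ (m + 1) * c := by
      rw [pow_succ]; nlinarith
    calc law ν d {w | Big w 0 R (3 ^ (m + 1) * c)}
        ≤ law ν d {w | Big w 0 R (2 * (3 ^ m * c) + T)} := g_mono ν le_rfl h3
      _ ≤ law ν d {w | Big w 0 R (3 ^ m * c)} ^ 2 := hs d ν T hT0 hT R _
      _ ≤ (law ν d {w | Big w 0 R c} ^ (2 ^ m)) ^ 2 := pow_le_pow_left' ih 2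
      _ = law ν d {w | Big w 0 R c} ^ (2 ^ (m + 1)) := by rw [← pow_mul, pow_succ]

/-- one step of the recursion -/
lemma step (hr : S_REC) (hs : S_SPLIT) (ν : Measure ℝ) [IsProbabilityMeasure ν] (T : ℝ)
    (hT0 : 0 ≤ T) (hT : ν (Set.Ioi T) = 0) (K R : ℕ) (hK : 1 ≤ K) (hR : 1 ≤ R) (c : ℝ)
    (hc : T ≤ c) (m : ℕ) (hg : law ν d {w | Big w 0 (2 * R) c} ≤ 2⁻¹) :
    law ν d {w | Big w 0 (2 * K * R) (2 ^ d * (3 ^ m * c))} ≤
      (∑ i : Fin d, law ν d {w | Exc w i (2 * K * R) R}) +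
        (2 * (K : ℝ≥0∞)) ^ d * (2⁻¹ : ℝ≥0∞) ^ (2 ^ m) := by
  refine (hr d ν K R hK hR (3 ^ m * c)).trans ?_
  gcongr
  exact (split_iter hs ν T hT0 hT (2 * R) c hc m).trans (pow_le_pow_left' hg _)

theorem U2 : S_REC → S_SPLIT → S_U2 := by
  intro hr hs d ν _ T hT0 hT hE δ ε hδ hε R00
  -- the error terms tend to zero
  have hE' : ∀ K : ℕ, Tendsto (fun R : ℕ => ∑ i : Fin d, law ν d {w | Exc w i (2 * K * R) R})
      atTop (𝓝 0) := by
    intro K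
    have := tendsto_finsetSum (univ : Finset (Fin d)) (fun i _ => hE i K)
    simpa using this
  have hEv : ∀ (K : ℕ) (η : ℝ), 0 < η → ∃ N : ℕ, ∀ R, N ≤ R →
      ∑ i : Fin d, law ν d {w | Exc w i (2 * K * R) R} ≤ ENNReal.ofReal η := by
    intro K η hη
    have := (hE' K).eventually (ge_mem_nhds (ENNReal.ofReal_pos.mpr hη))
    exact eventually_atTop.mp this
  -- step 1
  obtain ⟨m, hm1, hm⟩ := small (2 ^ d) d (1 / 4) (by norm_num)
  set K0 : ℕ := 2 ^ d * 3 ^ m with hK0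
  have hK0pos : 3 ≤ K0 := by
    have h1 : 1 ≤ 2 ^ d := Nat.one_le_two_pow
    have h2 : 3 ^ 1 ≤ 3 ^ m := Nat.pow_le_pow_right (by norm_num) hm1
    calc 3 = 1 * 3 ^ 1 := by norm_num
      _ ≤ 2 ^ d * 3 ^ m := Nat.mul_le_mul h1 h2
  obtain ⟨N, hN⟩ := hEv K0 (1 / 4) (by norm_num)
  set R0 : ℕ := N + 1 with hR0
  set c0 : ℝ := T * (2 * R0 : ℕ) ^ d + T + 1 with hc0
  have hc0T : T + 1 ≤ c0 := by
    have : 0 ≤ T * ((2 * R0 : ℕ) : ℝ) ^ d := by positivity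
    linarith
  have key : ∀ j : ℕ, law ν d {w | Big w 0 (2 * (K0 ^ j * R0)) (K0 ^ j * c0)} ≤ 2⁻¹ := by
    intro j
    induction j with
    | zero =>
      rw [pow_zero, one_mul, pow_zero, one_mul, big_zero ν T hT0 hT (2 * R0) c0 (by linarith)]
      exact zero_le
    | succ j ih =>
      have hRj : 1 ≤ K0 ^ j * R0 :=
        Nat.one_le_iff_ne_zero.mpr (Nat.mul_ne_zero (by positivity) (by omega))
      have hKj : (1 : ℝ) ≤ (K0 : ℝ) ^ j := one_le_pow₀ (by exact_mod_cast (by omega : 1 ≤ K0))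
      have hcj : T ≤ K0 ^ j * c0 := by nlinarith
      have h1 := step hr hs ν T hT0 hT K0 (K0 ^ j * R0) (by omega) hRj (K0 ^ j * c0) hcj m ih
      have e1 : 2 * K0 * (K0 ^ j * R0) = 2 * (K0 ^ (j + 1) * R0) := by ring
      have e2 : (2 : ℝ) ^ d * (3 ^ m * (K0 ^ j * c0)) = K0 ^ (j + 1) * c0 := by
        rw [pow_succ, hK0]; push_cast; ring
      rw [e1, e2] at h1
      refine h1.trans ?_
      have h2 := hN (K0 ^ j * R0) (by
        have : 1 ≤ K0 ^ j := Nat.one_le_iff_ne_zero.mpr (by positivity)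
        nlinarith)
      rw [e1] at h2
      calc _ ≤ ENNReal.ofReal (1 / 4) + ENNReal.ofReal (1 / 4) := add_le_add h2 hm
        _ = 2⁻¹ := by
          rw [← ENNReal.ofReal_add (by norm_num) (by norm_num),
            show (1 / 4 + 1 / 4 : ℝ) = (2 : ℝ)⁻¹ by norm_num,
            ENNReal.ofReal_inv_of_pos (by norm_num), ENNReal.ofReal_ofNat]
  -- step 2
  obtain ⟨q, hq⟩ := exists_nat_ge (3 * c0 / ε)
  have hq' : 3 * c0 ≤ ε * (q + 1) := by
    rw [div_le_iff₀ hε] at hq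
    nlinarith
  obtain ⟨m2, hm21, hm2⟩ := small (2 ^ d * (q + 1)) d (δ / 2) (by positivity)
  obtain ⟨m', rfl⟩ : ∃ m', m2 = m' + 1 := ⟨m2 - 1, by omega⟩
  set K' : ℕ := 2 ^ d * (q + 1) * 3 ^ m' with hK'
  have hK'1 : 1 ≤ K' := Nat.one_le_iff_ne_zero.mpr (by positivity)
  have eK : 2 ^ d * (q + 1) * 3 ^ (m' + 1) = 3 * K' := by rw [hK']; ring
  rw [eK] at hm2
  obtain ⟨N2, hN2⟩ := hEv (3 * K') (δ / 2) (by positivity)
  set j : ℕ := N2 + R00 with hj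
  have hjK : j < K0 ^ j := Nat.lt_pow_self (by omega)
  have hRj : 1 ≤ K0 ^ j * R0 :=
    Nat.one_le_iff_ne_zero.mpr (Nat.mul_ne_zero (by positivity) (by omega))
  have hRj2 : K0 ^ j ≤ K0 ^ j * R0 := Nat.le_mul_of_pos_right _ (by omega)
  refine ⟨2 * K' * (K0 ^ j * R0), ?_, ?_⟩
  · nlinarith
  · have hKj : (1 : ℝ) ≤ (K0 : ℝ) ^ j := one_le_pow₀ (by exact_mod_cast (by omega : 1 ≤ K0))
    have hcj : T ≤ K0 ^ j * c0 := by nlinarith
    have h1 := step hr hs ν T hT0 hT (3 * K') (K0 ^ j * R0) (by omega) hRj (K0 ^ j * c0) hcj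
      (m' + 1) (key j)
    have e1 : 2 * (3 * K') * (K0 ^ j * R0) = 3 * (2 * K' * (K0 ^ j * R0)) := by ring
    have h2 := hN2 (K0 ^ j * R0) (by omega)
    rw [e1] at h1 h2
    refine (g_mono ν le_rfl ?_).trans (h1.trans ?_)
    · -- `2^d 3^(m'+1) c_j ≤ ε R`
      have hR0' : (1 : ℝ) ≤ R0 := by exact_mod_cast (by omega : 1 ≤ R0)
      have hP : (0 : ℝ) < 2 ^ d * 3 ^ m' * (K0 : ℝ) ^ j := by positivity
      rw [hK', pow_succ]
      push_cast
      have h3 : (3 : ℝ) * c0 ≤ ε * (q + 1) * (2 * R0) := by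
        have h4 : 0 ≤ ε * ((q : ℝ) + 1) := by positivity
        nlinarith
      calc (2 : ℝ) ^ d * (3 ^ m' * 3 * (K0 ^ j * c0))
          = (2 ^ d * 3 ^ m' * (K0 : ℝ) ^ j) * (3 * c0) := by ring
        _ ≤ (2 ^ d * 3 ^ m' * (K0 : ℝ) ^ j) * (ε * (q + 1) * (2 * R0)) :=
            mul_le_mul_of_nonneg_left h3 hP.le
        _ = ε * (2 * (2 ^ d * (q + 1) * 3 ^ m') * (K0 ^ j * R0)) := by ring
    · calc _ ≤ ENNReal.ofReal (δ / 2) + ENNReal.ofReal (δ / 2) := add_le_add h2 hm2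
        _ = ENNReal.ofReal δ := by
          rw [← ENNReal.ofReal_add (by positivity) (by positivity)]
          congr 1
          ring

end Pool.Agent.W318.GP
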